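import Pool.Agent.Helper28.PP.Label

set_option autoImplicit false

/-!
MP_120218_co, project PP: the sum side for the cosets of any group of rank `r`.
-/

open Finset

namespace Pool.Agent.Helper28.PP

open Pool.Agent.Helper88.PP

/-- the sum side for groups: if many elements `a` of `A` have many elements of `A` in `± a Γ`, `Γ`
generated by `r` rationals, then `A + D` is large for all `D` -/
def SumGroup : Prop :=
  ∀ ε : ℝ, 0 < ε → ∃ C : ℝ, 1 ≤ C ∧
    ∀ (r : ℕ) (g : Fin r → ℚ) (A : Finset ℤ), 1 ≤ r → (∀ i, g i ≠ 0) → A.Nonempty →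
      (A.card : ℝ) ^ (1 - 1 / C) ≤
        ({a : ℤ | a ∈ A ∧ (1 + C * Real.log A.card / r) ^ r <
          ({b : ℤ | b ∈ A ∧ ∃ e : Fin r → ℤ, (b : ℚ) = a * ∏ i, g i ^ e i ∨
            (b : ℚ) = -(a * ∏ i, g i ^ e i)}.ncard : ℝ)}.ncard : ℝ) →
      ∀ D : Finset ℤ, D.Nonempty →
        ((A.card : ℝ) * D.card) ^ (1 - ε) ≤ C * ((sumS A D).card : ℝ)

/-- the valuations as integers -/
def vv {r : ℕ} (q : Fin r → ℕ) (x : ℤ) : Fin r → ℤ := fun l => (padicValInt (q l) x : ℤ)

/-- the labels are admissible -/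
theorem labOK {r : ℕ} (q : Fin r → ℕ) (hq : ∀ l, (q l).Prime) (θ : (Fin r → ℤ) → ℚ)
    (hθ0 : ∀ n, 0 < θ n) (hθ : ∀ n l, padicValRat (q l) (θ n) = n l) (A : Finset ℤ)
    (h0 : (0 : ℤ) ∉ A) :
    LabOK q A (fun x : ℤ => (x : ℚ) / θ (vv q x)) (fun l s a => ball (q l) s a) := by
  refine ⟨?_, ?_, ?_⟩
  · intro x _ x' _ h1 h2
    have h3 : vv q x = vv q x' := by
      funext l
      unfold vv
      rw [h2 l]
    have h4 : (x : ℚ) / θ (vv q x) = (x' : ℚ) / θ (vv q x') := h1
    rw [h3, div_left_inj' (hθ0 _).ne'] at h4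
    exact_mod_cast h4
  · intro l s a a' h
    have := Fact.mk (hq l)
    exact ball_mono _ _ _ _ h
  · intro x hx x' hx' h2 l s
    have hpf := Fact.mk (hq l)
    have hx0 : x ≠ 0 := fun h => h0 (h ▸ hx)
    have hx0' : x' ≠ 0 := fun h => h0 (h ▸ hx')
    have h3 : vv q x' = vv q x := by
      funext l
      unfold vv
      rw [h2 l]
    have hp0 : (0 : ℚ) < ((q l : ℕ) : ℚ) := by exact_mod_cast (hq l).pos
    rw [ball_iff]
    rw [h3, ← sub_div]
    have h4 : padicNorm (q l) (((x : ℚ) - x') / θ (vv q x)) =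
        padicNorm (q l) ((x - x' : ℤ) : ℚ) * ((q l : ℕ) : ℚ) ^ ((padicValInt (q l) x : ℕ) : ℤ) := by
      rw [padicNorm.div, padicNorm.eq_zpow_of_nonzero (hθ0 _).ne', hθ]
      unfold vv
      rw [zpow_neg, div_inv_eq_mul]
      push_cast
      rfl
    rw [h4]
    have h5 := padicNorm.dvd_iff_norm_le (p := q l) (n := s) (z := x - x')
    have h6 : (((q l : ℕ) ^ s : ℕ) : ℤ) = (q l : ℤ) ^ s := by push_cast; rfl
    rw [h6] at h5
    rcases le_or_gt (padicValInt (q l) x) s with hle | hlt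
    · rw [h5]
      have e : (((s - padicValInt (q l) x : ℕ) : ℕ) : ℤ) = (s : ℤ) - (padicValInt (q l) x : ℕ) := by
        omega
      rw [e, ← le_div_iff₀ (zpow_pos hp0 _), ← zpow_sub₀ hp0.ne']
      have e2 : -((s : ℤ) - (padicValInt (q l) x : ℕ)) - (padicValInt (q l) x : ℕ) = -(s : ℤ) := by
        ring
      rw [e2]
    · have hd : ((q l : ℤ) ^ (padicValInt (q l) x)) ∣ x - x' := by
        refine dvd_sub ?_ ?_
        · exact padicValInt_dvd x
        · rw [h2 l]
          exact padicValInt_dvd x'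
      refine ⟨fun _ => ?_, fun _ => (pow_dvd_pow _ hlt.le).trans hd⟩
      have h7 := padicNorm.dvd_iff_norm_le (p := q l) (n := padicValInt (q l) x) (z := x - x')
      have h8 : (((q l : ℕ) ^ (padicValInt (q l) x) : ℕ) : ℤ) = (q l : ℤ) ^ (padicValInt (q l) x) := by
        push_cast; rfl
      rw [h8] at h7
      have h9 := h7.1 hd
      have e : (s - padicValInt (q l) x : ℕ) = 0 := by omega
      rw [e]
      calc padicNorm (q l) ((x - x' : ℤ) : ℚ) * ((q l : ℕ) : ℚ) ^ ((padicValInt (q l) x : ℕ) : ℤ)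
          ≤ ((q l : ℕ) : ℚ) ^ (-((padicValInt (q l) x : ℕ) : ℤ)) *
            ((q l : ℕ) : ℚ) ^ ((padicValInt (q l) x : ℕ) : ℤ) :=
            mul_le_mul_of_nonneg_right h9 (by positivity)
        _ = 1 := by rw [← zpow_add₀ hp0.ne']; simp
        _ ≤ ((q l : ℕ) : ℚ) ^ (-((0 : ℕ) : ℤ)) := by simp

/-- the valuations of an integer and of the same rational -/
theorem vv_eq {r : ℕ} (q : Fin r → ℕ) (x : ℤ) (l : Fin r) :
    vv q x l = padicValRat (q l) (x : ℚ) := by
  unfold vv
  rw [padicValRat.of_int]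

/-- elements of one coset have the same label up to sign -/
theorem label_coset {r : ℕ} (g : Fin r → ℚ) (hg : ∀ i, g i ≠ 0) (q : Fin r → ℕ)
    (hq : ∀ l, (q l).Prime) (θ : (Fin r → ℤ) → ℚ) (hθ0 : ∀ n, 0 < θ n)
    (hθ : ∀ (n : Fin r → ℤ) (e : Fin r → ℤ),
        θ (fun l => n l + padicValRat (q l) (∏ i, |g i| ^ e i)) = θ n * ∏ i, |g i| ^ e i)
    (a b : ℤ) (ha : a ≠ 0) (e : Fin r → ℤ)
    (h : (b : ℚ) = a * ∏ i, g i ^ e i ∨ (b : ℚ) = -(a * ∏ i, g i ^ e i)) :
    (b : ℚ) / θ (vv q b) = (a : ℚ) / θ (vv q a) ∨ (b : ℚ) / θ (vv q b) = -((a : ℚ) / θ (vv q a)) := by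
  have hgpos : ∀ i, 0 < |g i| := fun i => abs_pos.2 (hg i)
  have habs : |∏ i, g i ^ e i| = ∏ i, |g i| ^ e i := by
    rw [abs_prod]
    refine prod_congr rfl fun i _ => ?_
    rw [abs_zpow]
  have hprodpos : 0 < ∏ i, |g i| ^ e i := prod_pos fun i _ => zpow_pos (hgpos i) _
  have h1 : (b : ℚ) = a * ∏ i, |g i| ^ e i ∨ (b : ℚ) = -(a * ∏ i, |g i| ^ e i) := by
    rw [← habs]
    rcases abs_choice (∏ i, g i ^ e i) with h2 | h2
    · rw [h2]; exact h
    · rw [h2]
      rcases h with h | h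
      · right; rw [h]; ring
      · left; rw [h]; ring
  have haQ : (a : ℚ) ≠ 0 := by exact_mod_cast ha
  have hv : vv q b = fun l => vv q a l + padicValRat (q l) (∏ i, |g i| ^ e i) := by
    funext l
    have := Fact.mk (hq l)
    rw [vv_eq, vv_eq]
    rcases h1 with h1 | h1
    · rw [h1, padicValRat.mul haQ hprodpos.ne']
    · rw [h1, padicValRat.neg, padicValRat.mul haQ hprodpos.ne']
  have hθb : θ (vv q b) = θ (vv q a) * ∏ i, |g i| ^ e i := by
    rw [hv]
    exact hθ _ _
  have hθa := (hθ0 (vv q a)).ne'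
  rcases h1 with h1 | h1
  · left
    rw [hθb, h1]
    field_simp
  · right
    rw [hθb, h1]
    field_simp

/-- counting: elements whose `±` class is large -/
theorem count_sign (A B : Finset ℤ) (κ : ℤ → ℚ) (T : ℝ) (hBA : B ⊆ A)
    (hB : ∀ a ∈ B, 2 * T < ((A.filter (fun b => κ b = κ a ∨ κ b = -κ a)).card : ℝ)) :
    B.card ≤ 2 * (A.filter (fun a => T < ((A.filter (fun b => κ b = κ a)).card : ℝ))).card := by
  classical
  set G := A.filter (fun a => T < ((A.filter (fun b => κ b = κ a)).card : ℝ)) with hG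
  have h1 : (B.filter (fun a => a ∈ G)).card ≤ G.card :=
    card_le_card fun a ha => (mem_filter.1 ha).2
  have h2 : (B.filter (fun a => a ∉ G)).card ≤ G.card := by
    set B2 := B.filter (fun a => a ∉ G) with hB2
    have hkey : ∀ a ∈ B2, (A.filter (fun b => κ b = κ a)).card ≤
        (G.filter (fun b => -κ b = κ a)).card := by
      intro a ha
      rw [hB2, mem_filter] at ha
      have h3 := hB a ha.1
      have h4 : ((A.filter (fun b => κ b = κ a)).card : ℝ) ≤ T := by
        by_contra hcon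
        push Not at hcon
        exact ha.2 (mem_filter.2 ⟨hBA ha.1, hcon⟩)
      have h5 : ((A.filter (fun b => κ b = κ a ∨ κ b = -κ a)).card : ℝ) ≤
          ((A.filter (fun b => κ b = κ a)).card : ℝ) +
          ((A.filter (fun b => κ b = -κ a)).card : ℝ) := by
        rw [filter_or]
        exact_mod_cast card_union_le _ _
      have h6 : T < ((A.filter (fun b => κ b = -κ a)).card : ℝ) := by linarith
      have h7 : A.filter (fun b => κ b = -κ a) ⊆ G.filter (fun b => -κ b = κ a) := by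
        intro b hb
        rw [mem_filter] at hb
        rw [mem_filter, hG, mem_filter]
        refine ⟨⟨hb.1, ?_⟩, by rw [hb.2, neg_neg]⟩
        rw [hb.2]
        exact h6
      have h8 : ((A.filter (fun b => κ b = -κ a)).card : ℝ) ≤
          ((G.filter (fun b => -κ b = κ a)).card : ℝ) := by exact_mod_cast card_le_card h7
      have h9 : ((A.filter (fun b => κ b = κ a)).card : ℝ) ≤
          ((G.filter (fun b => -κ b = κ a)).card : ℝ) := by linarith
      exact_mod_cast h9
    calc B2.card = ∑ y ∈ B2.image κ, (B2.filter (fun a => κ a = y)).card :=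
          card_eq_sum_card_image κ B2
      _ ≤ ∑ y ∈ B2.image κ, (G.filter (fun b => -κ b = y)).card := by
          refine sum_le_sum fun y hy => ?_
          obtain ⟨a, ha, rfl⟩ := mem_image.1 hy
          refine (card_le_card ?_).trans (hkey a ha)
          intro b hb
          rw [mem_filter] at hb ⊢
          exact ⟨hBA (mem_filter.1 hb.1).1, hb.2⟩
      _ ≤ G.card := by
          rw [← card_biUnion]
          · exact card_le_card fun b hb => by
              obtain ⟨y, _, hb⟩ := mem_biUnion.1 hb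
              exact (mem_filter.1 hb).1
          · intro y _ y' _ hne
            rw [Function.onFun, disjoint_left]
            intro b hb hb'
            exact hne ((mem_filter.1 hb).2.symm.trans (mem_filter.1 hb').2)
  have h3 : (B.filter (fun a => a ∈ G)).card + (B.filter (fun a => a ∉ G)).card = B.card :=
    card_filter_add_card_filter_not _
  omega

/-- `e ^ L ≤ (1 + C L / r) ^ r` if `L ≤ K r` -/
theorem exp_le_pow (K C L : ℝ) (r : ℕ) (hr : 1 ≤ r) (hL : 0 ≤ L) (hK : L ≤ K * r)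
    (hC : Real.exp K ≤ C) : Real.exp L ≤ (1 + C * L / r) ^ r := by
  have hr0 : (0 : ℝ) < r := by exact_mod_cast hr
  obtain ⟨x, hx⟩ : ∃ x : ℝ, x = L / r := ⟨_, rfl⟩
  have hx0 : 0 ≤ x := by rw [hx]; positivity
  have hxK : x ≤ K := by rw [hx, div_le_iff₀ hr0]; exact hK
  have h1 : Real.exp x ≤ 1 + C * x := by
    have h2 : 1 - x ≤ Real.exp (-x) := by
      have := Real.add_one_le_exp (-x)
      linarith
    have h3 : Real.exp x * Real.exp (-x) = 1 := by rw [← Real.exp_add]; simp
    have h4 : 0 < Real.exp x := Real.exp_pos x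
    have h5 : Real.exp x ≤ Real.exp K := Real.exp_le_exp.2 hxK
    have h6 : Real.exp x * (1 - x) ≤ 1 :=
      (mul_le_mul_of_nonneg_left h2 h4.le).trans (le_of_eq h3)
    have h7 : x * Real.exp x ≤ x * C := mul_le_mul_of_nonneg_left (h5.trans hC) hx0
    linarith
  have e1 : Real.exp L = Real.exp x ^ r := by
    rw [← Real.exp_nat_mul, hx]
    congr 1
    field_simp
  have e2 : C * L / r = C * x := by rw [hx]; ring
  rw [e1, e2]
  exact pow_le_pow_left₀ (Real.exp_pos x).le h1 r

theorem sumGroup (hS : SumAbs) : SumGroup := by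
  classical
  intro ε hε
  obtain ⟨C₀, hC₀, hmain⟩ := hS ε hε
  obtain ⟨K, hK⟩ : ∃ K : ℝ, K = 4 * C₀ + 4 := ⟨_, rfl⟩
  have hexpK : 0 < Real.exp K := Real.exp_pos K
  obtain ⟨C, hC⟩ : ∃ C : ℝ, C = Real.exp K + 4 * C₀ := ⟨_, rfl⟩
  refine ⟨C, by linarith, ?_⟩
  intro r g A hr hg hA hbig D hD
  have hN1 : (1 : ℝ) ≤ (A.card : ℝ) := by exact_mod_cast hA.card_pos
  have hN0 : (0 : ℝ) < (A.card : ℝ) := by linarith
  obtain ⟨L, hL⟩ : ∃ L : ℝ, L = Real.log A.card := ⟨_, rfl⟩
  have hL0 : 0 ≤ L := by rw [hL]; exact Real.log_nonneg hN1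
  have hr1 : (1 : ℝ) ≤ (r : ℝ) := by exact_mod_cast hr
  have hr0 : (0 : ℝ) < (r : ℝ) := by linarith
  rw [← hL] at hbig
  -- the fibres as finsets
  set fib : ℤ → Finset ℤ := fun a => A.filter (fun b => ∃ e : Fin r → ℤ,
    (b : ℚ) = a * ∏ i, g i ^ e i ∨ (b : ℚ) = -(a * ∏ i, g i ^ e i)) with hfib
  have hfibn : ∀ a : ℤ, ({b : ℤ | b ∈ A ∧ ∃ e : Fin r → ℤ, (b : ℚ) = a * ∏ i, g i ^ e i ∨
            (b : ℚ) = -(a * ∏ i, g i ^ e i)}.ncard) = (fib a).card := by
    intro a
    rw [← Set.ncard_coe_finset]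
    congr 1
    ext b
    simp [hfib]
  obtain ⟨B, hB⟩ : ∃ B : Finset ℤ, B = A.filter (fun a => (1 + C * L / r) ^ r <
      ((fib a).card : ℝ)) := ⟨_, rfl⟩
  have hBn : ({a : ℤ | a ∈ A ∧ (1 + C * L / r) ^ r <
          ({b : ℤ | b ∈ A ∧ ∃ e : Fin r → ℤ, (b : ℚ) = a * ∏ i, g i ^ e i ∨
            (b : ℚ) = -(a * ∏ i, g i ^ e i)}.ncard : ℝ)}.ncard) = B.card := by
    rw [← Set.ncard_coe_finset]
    congr 1
    ext a
    rw [hB]
    simp only [Set.mem_ofPred_eq, coe_filter]
    rw [hfibn]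
  rw [hBn] at hbig
  have hfibN : ∀ a, ((fib a).card : ℝ) ≤ (A.card : ℝ) := fun a => by
    exact_mod_cast card_le_card (filter_subset _ _)
  rcases le_or_gt L (K * r) with hsmall | hlarge
  · -- small sets: no large fibres
    exfalso
    have h1 := exp_le_pow K C L r hr hL0 hsmall (by rw [hC]; linarith)
    have h2 : Real.exp L = (A.card : ℝ) := by rw [hL, Real.exp_log hN0]
    have h3 : B = ∅ := by
      rw [hB, filter_eq_empty_iff]
      intro a _ h4
      have := hfibN a
      linarith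
    rw [h3, card_empty, Nat.cast_zero] at hbig
    have : 0 < (A.card : ℝ) ^ (1 - 1 / C) := Real.rpow_pos_of_pos hN0 _
    linarith
  -- the non-zero elements
  obtain ⟨A', hA'⟩ : ∃ A' : Finset ℤ, A' = A.erase 0 := ⟨_, rfl⟩
  have hA'0 : (0 : ℤ) ∉ A' := by rw [hA']; exact notMem_erase _ _
  have hA'A : A' ⊆ A := by rw [hA']; exact erase_subset _ _
  have hKr : K ≤ K * r := by nlinarith
  have hLK : K < L := by linarith
  have hN5 : (5 : ℝ) ≤ (A.card : ℝ) := by
    have h1 : Real.exp L = (A.card : ℝ) := by rw [hL, Real.exp_log hN0]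
    rw [← h1]
    have := Real.add_one_le_exp L
    linarith
  have hN5' : 5 ≤ A.card := by exact_mod_cast hN5
  have hcard' : A.card ≤ A'.card + 1 := by
    rw [hA']
    have := pred_card_le_card_erase (a := (0 : ℤ)) (s := A)
    omega
  have hcardR : (A.card : ℝ) ≤ (A'.card : ℝ) + 1 := by exact_mod_cast hcard'
  have hcardle : (A'.card : ℝ) ≤ (A.card : ℝ) := by exact_mod_cast card_le_card hA'A
  have hN'0 : (0 : ℝ) < (A'.card : ℝ) := by linarith
  obtain ⟨L', hL'⟩ : ∃ L' : ℝ, L' = Real.log A'.card := ⟨_, rfl⟩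
  have hL'L : L' ≤ L := by
    rw [hL', hL]
    exact Real.log_le_log hN'0 hcardle
  have hLL' : L - 1 ≤ L' := by
    have h1 : (A.card : ℝ) ≤ 2 * (A'.card : ℝ) := by linarith
    have h2 : L ≤ Real.log 2 + L' := by
      rw [hL, hL', ← Real.log_mul (by norm_num) hN'0.ne']
      exact Real.log_le_log hN0 h1
    have h3 := Real.log_two_lt_d9
    linarith
  have hL'0 : 0 ≤ L' := by linarith
  -- the labels
  obtain ⟨q, hq, hinj, hsep⟩ := exists_primes r (fun i => |g i|) (fun i => abs_pos.2 (hg i))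
  obtain ⟨θ, hθ0, hθv, hθg⟩ := exists_theta r (fun i => |g i|) (fun i => abs_pos.2 (hg i)) q hq
    hinj hsep
  have hlab := labOK q hq θ hθ0 hθv A' hA'0
  set κ : ℤ → ℚ := fun x : ℤ => (x : ℚ) / θ (vv q x) with hκ
  -- the elements with large fibres are non-zero
  have hpow1 : (1 : ℝ) ≤ (1 + C * L / r) ^ r := by
    refine one_le_pow₀ ?_
    have : 0 ≤ C * L / r := by
      have : 0 ≤ C := by linarith
      positivity
    linarith
  have hB0 : ∀ a ∈ B, a ≠ 0 := by
    intro a ha h0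
    rw [hB, mem_filter] at ha
    have h1 : (fib a).card ≤ 1 := by
      rw [card_le_one]
      intro x hx y hy
      simp only [hfib, mem_filter] at hx hy
      obtain ⟨-, e, he⟩ := hx
      obtain ⟨-, e', he'⟩ := hy
      rw [h0] at he he'
      have hx0 : (x : ℚ) = 0 := by rcases he with h | h <;> rw [h] <;> simp
      have hy0 : (y : ℚ) = 0 := by rcases he' with h | h <;> rw [h] <;> simp
      have hx1 : x = 0 := by exact_mod_cast hx0
      have hy1 : y = 0 := by exact_mod_cast hy0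
      rw [hx1, hy1]
    have h2 : ((fib a).card : ℝ) ≤ 1 := by exact_mod_cast h1
    linarith [ha.2]
  have hBA' : B ⊆ A' := by
    intro a ha
    have h1 := hB0 a ha
    rw [hB, mem_filter] at ha
    rw [hA', mem_erase]
    exact ⟨h1, ha.1⟩
  obtain ⟨T, hT⟩ : ∃ T : ℝ, T = (C₀ * L' / r) ^ r := ⟨_, rfl⟩
  have h2T : 2 * T ≤ (1 + C * L / r) ^ r := by
    have h1 : 2 * (C₀ * L' / r) ≤ 1 + C * L / r := by
      have h2 : 2 * (C₀ * L' / r) = (2 * C₀) * L' / r := by ring
      have h3 : (2 * C₀) * L' / r ≤ C * L / r := by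
        refine div_le_div_of_nonneg_right ?_ hr0.le
        exact mul_le_mul (by linarith) hL'L hL'0 (by linarith)
      linarith
    have h4 : (0 : ℝ) ≤ C₀ * L' / r := by positivity
    have h5 : (2 : ℝ) ≤ 2 ^ r := by
      calc (2 : ℝ) = 2 ^ 1 := by norm_num
        _ ≤ 2 ^ r := pow_le_pow_right₀ (by norm_num) hr
    calc 2 * T ≤ 2 ^ r * T := mul_le_mul_of_nonneg_right h5 (by rw [hT]; positivity)
      _ = (2 * (C₀ * L' / r)) ^ r := by rw [hT, mul_pow]
      _ ≤ (1 + C * L / r) ^ r := pow_le_pow_left₀ (by positivity) h1 r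
  have hcount := count_sign A' B κ T hBA' (by
    intro a ha
    have h0 := hB0 a ha
    rw [hB, mem_filter] at ha
    refine lt_of_le_of_lt h2T (lt_of_lt_of_le ha.2 ?_)
    have : fib a ⊆ A'.filter (fun b => κ b = κ a ∨ κ b = -κ a) := by
      intro b hb
      simp only [hfib, mem_filter] at hb
      obtain ⟨hbA, e, he⟩ := hb
      rw [mem_filter, hA', mem_erase]
      refine ⟨⟨?_, hbA⟩, ?_⟩
      · intro hb0
        have hprod : ∏ i, g i ^ e i ≠ 0 := prod_ne_zero_iff.2 fun i _ => zpow_ne_zero _ (hg i)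
        have haQ : (a : ℚ) ≠ 0 := by exact_mod_cast h0
        rw [hb0] at he
        rcases he with he | he
        · exact mul_ne_zero haQ hprod (by rw [← he]; simp)
        · refine mul_ne_zero haQ hprod ?_
          have : (0 : ℚ) = -(a * ∏ i, g i ^ e i) := by rw [← he]; simp
          linarith
      · exact label_coset g hg q hq θ hθ0 hθg a b h0 e he
    exact_mod_cast card_le_card this)
  -- the abstract theorem
  have hx : 0 < Real.log 2 := Real.log_pos (by norm_num)
  have hgood : (A'.card : ℝ) ^ (1 - 1 / C₀) ≤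
      ((A'.filter (fun a => T < ((A'.filter (fun b => κ b = κ a)).card : ℝ))).card : ℝ) := by
    have h1 : (B.card : ℝ) ≤
        2 * ((A'.filter (fun a => T < ((A'.filter (fun b => κ b = κ a)).card : ℝ))).card : ℝ) := by
      exact_mod_cast hcount
    have h2 : 2 * (A'.card : ℝ) ^ (1 - 1 / C₀) ≤ (A.card : ℝ) ^ (1 - 1 / C) := by
      have h3 : (A'.card : ℝ) ^ (1 - 1 / C₀) ≤ (A.card : ℝ) ^ (1 - 1 / C₀) := by
        refine Real.rpow_le_rpow hN'0.le hcardle ?_
        have : 1 / C₀ ≤ 1 := by rw [div_le_one (by linarith)]; exact hC₀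
        linarith
      have h4 : (2 : ℝ) ≤ (A.card : ℝ) ^ (1 / C₀ - 1 / C) := by
        have h5 : 1 / C ≤ 1 / (4 * C₀) :=
          one_div_le_one_div_of_le (by linarith) (by linarith)
        have h6 : 3 / (4 * C₀) ≤ 1 / C₀ - 1 / C := by
          have : 1 / C₀ - 1 / (4 * C₀) = 3 / (4 * C₀) := by
            field_simp
            norm_num
          linarith
        have h7 : 3 ≤ L * (3 / (4 * C₀)) := by
          rw [mul_div_assoc', le_div_iff₀ (by linarith)]
          nlinarith
        have h8 : (1 : ℝ) ≤ L * (1 / C₀ - 1 / C) := by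
          have := mul_le_mul_of_nonneg_left h6 hL0
          linarith
        rw [Real.rpow_def_of_pos hN0, ← hL]
        have := Real.add_one_le_exp (L * (1 / C₀ - 1 / C))
        linarith
      calc 2 * (A'.card : ℝ) ^ (1 - 1 / C₀) ≤
            (A.card : ℝ) ^ (1 / C₀ - 1 / C) * (A.card : ℝ) ^ (1 - 1 / C₀) :=
            mul_le_mul h4 h3 (by positivity) (by positivity)
        _ = (A.card : ℝ) ^ (1 - 1 / C) := by
            rw [← Real.rpow_add hN0]
            congr 1
            ring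
    linarith
  have h3card : 3 ≤ A'.card := by omega
  have hJL : C₀ * r ≤ Real.log A'.card := by
    rw [← hL']
    nlinarith
  rw [hT, hL'] at hgood
  have hfin := hmain r q A' ℚ (Set ℚ) κ (fun l s a => ball (q l) s a) hr hq hinj hA'0 h3card hJL
    hlab (by
      refine hgood.trans (le_of_eq ?_)
      congr 2
      ext a
      simp only [mem_filter]
      refine and_congr_right fun _ => ?_
      have : (A'.filter (fun b => κ b = κ a)) =
        @Finset.filter ℤ (fun a' => κ a' = κ a) (fun a' => Classical.propDecidable _) A' := by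
        ext b
        simp only [mem_filter]
      rw [this]) D hD
  have hsub : ((sumS A' D).card : ℝ) ≤ ((sumS A D).card : ℝ) := by
    unfold sumS
    exact_mod_cast card_le_card (image_subset_image (product_subset_product_left hA'A))
  have hD1 : (1 : ℝ) ≤ (D.card : ℝ) := by exact_mod_cast hD.card_pos
  have hfin2 : ((A.card : ℝ) * D.card) ^ (1 - ε) ≤ 2 * ((A'.card : ℝ) * D.card) ^ (1 - ε) := by
    rcases le_or_gt ε 1 with h1 | h1
    · have h2 : ((A.card : ℝ) * D.card) ^ (1 - ε) ≤ (2 * ((A'.card : ℝ) * D.card)) ^ (1 - ε) := by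
        refine Real.rpow_le_rpow (by positivity) ?_ (by linarith)
        have : (A.card : ℝ) ≤ 2 * (A'.card : ℝ) := by linarith
        nlinarith
      refine h2.trans ?_
      rw [Real.mul_rpow (by norm_num) (by positivity)]
      refine mul_le_mul_of_nonneg_right ?_ (by positivity)
      calc (2 : ℝ) ^ (1 - ε) ≤ 2 ^ (1 : ℝ) :=
            Real.rpow_le_rpow_of_exponent_le (by norm_num) (by linarith)
        _ = 2 := Real.rpow_one 2
    · have h2 : ((A.card : ℝ) * D.card) ^ (1 - ε) ≤ ((A'.card : ℝ) * D.card) ^ (1 - ε) := by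
        refine Real.rpow_le_rpow_of_nonpos (by positivity) ?_ (by linarith)
        exact mul_le_mul_of_nonneg_right hcardle (by positivity)
      have h3 : 0 ≤ ((A'.card : ℝ) * D.card) ^ (1 - ε) := by positivity
      linarith
  calc ((A.card : ℝ) * D.card) ^ (1 - ε) ≤ 2 * ((A'.card : ℝ) * D.card) ^ (1 - ε) := hfin2
    _ ≤ 2 * (C₀ * ((sumS A' D).card : ℝ)) := mul_le_mul_of_nonneg_left hfin (by norm_num)
    _ ≤ 2 * (C₀ * ((sumS A D).card : ℝ)) := by
        refine mul_le_mul_of_nonneg_left ?_ (by norm_num)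
        exact mul_le_mul_of_nonneg_left hsub (by linarith)
    _ ≤ C * ((sumS A D).card : ℝ) := by
        have : (0 : ℝ) ≤ ((sumS A D).card : ℝ) := by positivity
        nlinarith

end Pool.Agent.Helper28.PP
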