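import Pool.Agent.Helper28.PP.Group
import Pool.Agent.Helper88.PP.All

set_option autoImplicit false

/-!
MP_120218_co, project PP: the sum side for groups of rank `r`, unconditional.
-/

namespace Pool.Agent.Helper28.PP

theorem sumGroup_all : SumGroup := sumGroup Pool.Agent.Helper88.PP.sumAbs_all

end Pool.Agent.Helper28.PP
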