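import Pool.Agent.Helper88.PP.Defs3
import Pool.Agent.Helper15.GL.Sep

set_option autoImplicit false

/-!
MP_120218_co, project PP: the labels of the cosets of a group of rank `r`.
-/

open Finset

namespace Pool.Agent.Helper28.PP

open Pool.Agent.Helper88.PP

/-- `r` primes that separate a group generated by `r` positive rationals -/
theorem exists_primes (r : ℕ) (g : Fin r → ℚ) (hg : ∀ i, 0 < g i) :
    ∃ q : Fin r → ℕ, (∀ l, (q l).Prime) ∧ Function.Injective q ∧ ∀ e e' : Fin r → ℤ,
      (∀ l, padicValRat (q l) (∏ i, g i ^ e i) = padicValRat (q l) (∏ i, g i ^ e' i)) →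
      ∏ i, g i ^ e i = ∏ i, g i ^ e' i := by
  rcases Nat.eq_zero_or_pos r with hr | hr
  · subst hr
    refine ⟨fun l => l.elim0, fun l => l.elim0, fun l => l.elim0, fun e e' _ => ?_⟩
    rw [univ_eq_empty, prod_empty, prod_empty]
  obtain ⟨Q, hQ, hQr, hsep⟩ := Pool.Agent.Helper15.GL.exists_separating r g hg
  obtain ⟨S, hQS, hSP, hSr⟩ := Set.Infinite.exists_superset_ncard_eq (s := (Q : Set ℕ))
    (t := {p : ℕ | p.Prime}) Nat.infinite_setOf_prime (fun p hp => hQ p (by simpa using hp))
    (Finset.finite_toSet Q) (k := r) (by rw [Set.ncard_coe_finset]; exact hQr)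
  have hcases : ∃ S' : Finset ℕ, (S' : Set ℕ) = S ∧ S'.card = r := by
    have hfin : S.Finite := Set.finite_of_ncard_pos (by omega)
    refine ⟨hfin.toFinset, hfin.coe_toFinset, ?_⟩
    rw [← Set.ncard_eq_toFinset_card S hfin]
    exact hSr
  obtain ⟨S', hS'S, hS'r⟩ := hcases
  refine ⟨fun l => (S'.orderEmbOfFin hS'r l), ?_, ?_, ?_⟩
  · intro l
    have h1 : (S'.orderEmbOfFin hS'r l) ∈ S' := orderEmbOfFin_mem _ _ _
    have h2 : (S'.orderEmbOfFin hS'r l) ∈ S := by rw [← hS'S]; exact_mod_cast h1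
    exact hSP h2
  · intro l l' h
    exact (S'.orderEmbOfFin hS'r).injective h
  · intro e e' h
    refine hsep e e' ?_
    intro p hp
    have h1 : p ∈ S' := by
      have : p ∈ S := hQS (by simpa using hp)
      rw [← hS'S] at this
      exact_mod_cast this
    have h2 : p ∈ Set.range (S'.orderEmbOfFin hS'r) := by
      rw [range_orderEmbOfFin]
      exact_mod_cast h1
    obtain ⟨l, rfl⟩ := h2
    exact h l

/-- balls: residues of rationals -/
def ball (p : ℕ) (s : ℕ) (a : ℚ) : Set ℚ := {b | padicNorm p (a - b) ≤ (p : ℚ) ^ (-(s : ℤ))}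

theorem ball_iff (p : ℕ) [hp : Fact p.Prime] (s : ℕ) (a a' : ℚ) :
    ball p s a = ball p s a' ↔ padicNorm p (a - a') ≤ (p : ℚ) ^ (-(s : ℤ)) := by
  have hp0 : (0 : ℚ) < (p : ℚ) := by exact_mod_cast hp.out.pos
  constructor
  · intro h
    have h1 : a' ∈ ball p s a' := by
      unfold ball
      simp only [Set.mem_ofPred_eq, sub_self, padicNorm.zero]
      positivity
    rw [← h] at h1
    exact h1
  · intro h
    have hsym : padicNorm p (a' - a) ≤ (p : ℚ) ^ (-(s : ℤ)) := by
      rw [← padicNorm.neg, neg_sub]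
      exact h
    ext b
    unfold ball
    simp only [Set.mem_ofPred_eq]
    constructor
    · intro h1
      have e : a' - b = (a' - a) + (a - b) := by ring
      rw [e]
      exact (padicNorm.nonarchimedean).trans (max_le hsym h1)
    · intro h1
      have e : a - b = (a - a') + (a' - b) := by ring
      rw [e]
      exact (padicNorm.nonarchimedean).trans (max_le h h1)

theorem ball_mono (p : ℕ) [hp : Fact p.Prime] (s : ℕ) (a a' : ℚ)
    (h : ball p (s + 1) a = ball p (s + 1) a') : ball p s a = ball p s a' := by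
  rw [ball_iff] at h ⊢
  refine h.trans ?_
  have hp1 : (1 : ℚ) ≤ (p : ℚ) := by exact_mod_cast hp.out.one_le
  exact zpow_le_zpow_right₀ hp1 (by push_cast; linarith)

/-- the section: `θ n` has the valuations `n`, and `θ` is compatible with the group -/
theorem exists_theta (r : ℕ) (g : Fin r → ℚ) (hg : ∀ i, 0 < g i) (q : Fin r → ℕ)
    (hq : ∀ l, (q l).Prime) (hinj : Function.Injective q)
    (hsep : ∀ e e' : Fin r → ℤ,
      (∀ l, padicValRat (q l) (∏ i, g i ^ e i) = padicValRat (q l) (∏ i, g i ^ e' i)) →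
      ∏ i, g i ^ e i = ∏ i, g i ^ e' i) :
    ∃ θ : (Fin r → ℤ) → ℚ, (∀ n, 0 < θ n) ∧ (∀ n l, padicValRat (q l) (θ n) = n l) ∧
      ∀ (n : Fin r → ℤ) (e : Fin r → ℤ),
        θ (fun l => n l + padicValRat (q l) (∏ i, g i ^ e i)) = θ n * ∏ i, g i ^ e i := by
  classical
  obtain ⟨V, hV⟩ : ∃ V : (Fin r → ℤ) →+ (Fin r → ℤ),
      ∀ e l, V e l = padicValRat (q l) (∏ i, g i ^ e i) := by
    refine ⟨{ toFun := fun e l => ∑ i, e i * padicValRat (q l) (g i), map_zero' := ?_,
              map_add' := ?_ }, ?_⟩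
    · funext l
      simp
    · intro e e'
      funext l
      simp only [Pi.add_apply, add_mul, sum_add_distrib]
    · intro e l
      rw [Pool.Agent.Helper15.GL.val_prod _ (hq l) g hg]
      rfl
  obtain ⟨s, hs⟩ : ∃ s : (Fin r → ℤ) → (Fin r → ℤ), s = fun n =>
      Quotient.out (QuotientAddGroup.mk n : (Fin r → ℤ) ⧸ V.range) := ⟨_, rfl⟩
  have hsmem : ∀ n, ∃ E : Fin r → ℤ, V E = n - s n := by
    intro n
    have h1 : (QuotientAddGroup.mk (s n) : (Fin r → ℤ) ⧸ V.range) = QuotientAddGroup.mk n := by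
      rw [hs]
      exact Quotient.out_eq _
    rw [QuotientAddGroup.eq] at h1
    obtain ⟨E, hE⟩ := h1
    refine ⟨E, ?_⟩
    rw [hE]
    abel
  choose E hE using hsmem
  have hsadd : ∀ n e, s (n + V e) = s n := by
    intro n e
    rw [hs]
    have h1 : (QuotientAddGroup.mk (n + V e) : (Fin r → ℤ) ⧸ V.range) = QuotientAddGroup.mk n := by
      rw [QuotientAddGroup.eq]
      exact ⟨-e, by rw [map_neg]; abel⟩
    simp only [h1]
  have hprodpos : ∀ e : Fin r → ℤ, 0 < ∏ i, g i ^ e i := fun e =>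
    prod_pos fun i _ => zpow_pos (hg i) _
  have hqpos : ∀ n : Fin r → ℤ, 0 < ∏ l, ((q l : ℕ) : ℚ) ^ n l := fun n =>
    prod_pos fun l _ => zpow_pos (by exact_mod_cast (hq l).pos) _
  refine ⟨fun n => (∏ l, ((q l : ℕ) : ℚ) ^ (s n l)) * ∏ i, g i ^ (E n i), ?_, ?_, ?_⟩
  · intro n
    exact mul_pos (hqpos _) (hprodpos _)
  · intro n l
    have := Fact.mk (hq l)
    rw [padicValRat.mul (hqpos _).ne' (hprodpos _).ne', ← hV, hE]
    rw [Pool.Agent.Helper15.GL.val_prod _ (hq l) (fun l => ((q l : ℕ) : ℚ))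
      (fun l => by exact_mod_cast (hq l).pos)]
    have h1 : ∑ i, s n i * padicValRat (q l) ((q i : ℕ) : ℚ) = s n l := by
      rw [sum_eq_single l]
      · rw [padicValRat.of_nat, padicValNat_self]
        simp
      · intro i _ hi
        have := Fact.mk (hq i)
        rw [padicValRat.of_nat, padicValNat_primes (fun h => hi (hinj h).symm)]
        simp
      · intro h
        exact absurd (mem_univ l) h
    rw [h1]
    simp
  · intro n e
    have h1 : (fun l => n l + padicValRat (q l) (∏ i, g i ^ e i)) = n + V e := by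
      funext l
      rw [Pi.add_apply, hV]
    rw [h1]
    simp only
    rw [hsadd]
    have h2 : ∏ i, g i ^ (E (n + V e) i) = ∏ i, g i ^ ((E n + e) i) := by
      refine hsep _ _ ?_
      intro l
      rw [← hV, ← hV, hE, map_add, hE, hsadd]
      simp only [Pi.add_apply, Pi.sub_apply]
      ring
    have h3 : ∏ i, g i ^ ((E n + e) i) = (∏ i, g i ^ (E n i)) * ∏ i, g i ^ e i := by
      rw [← prod_mul_distrib]
      refine prod_congr rfl fun i _ => ?_
      rw [Pi.add_apply, zpow_add₀ (hg i).ne']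
    rw [h2, h3, mul_assoc]

end Pool.Agent.Helper28.PP
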