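import Pool.Agent.Helper88.PP.Defs2

set_option autoImplicit false

/-!
MP_120218_co, project PP (popular primes): Q1 for the sets with few popular primes, from the
sum side and the product side.
-/

open Finset

namespace Pool.Agent.Helper28.PP

open Pool.Agent.Helper88.PP Pool.Agent.Helper26.TR

/-- one more summand -/
theorem sumS_sumSet (A : Finset ℤ) (k : ℕ) : sumS A (sumSet k A) = sumSet (k + 1) A := by
  ext x
  simp only [sumS, sumSet, mem_image, mem_product, Fintype.mem_piFinset, Prod.exists]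
  constructor
  · rintro ⟨a, b, ⟨ha, f, hf, rfl⟩, rfl⟩
    refine ⟨Fin.cons a f, ?_, ?_⟩
    · intro i
      refine Fin.cases ?_ ?_ i
      · simpa using ha
      · intro j
        simpa using hf j
    · rw [Fin.sum_univ_succ]
      simp
  · rintro ⟨f, hf, rfl⟩
    refine ⟨f 0, ∑ i : Fin k, f i.succ, ⟨hf 0, fun i => f i.succ, fun i => hf i.succ, rfl⟩, ?_⟩
    rw [Fin.sum_univ_succ]

theorem sumSet_card_le (A : Finset ℤ) (k : ℕ) : (sumSet k A).card ≤ A.card ^ k := by
  unfold sumSet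
  refine card_image_le.trans ?_
  rw [Fintype.card_piFinset]
  simp

theorem sumSet_nonempty {A : Finset ℤ} (hA : A.Nonempty) (k : ℕ) : (sumSet k A).Nonempty := by
  unfold sumSet
  exact (Fintype.piFinset_nonempty.2 fun _ => hA).image _

/-- iteration of the sum side -/
theorem sum_iter (A : Finset ℤ) (hA : A.Nonempty) (ε C : ℝ) (hε : 0 ≤ ε) (hC : 1 ≤ C)
    (h : ∀ D : Finset ℤ, D.Nonempty →
        ((A.card : ℝ) * D.card) ^ (1 - ε) ≤ C * ((sumS A D).card : ℝ)) (k : ℕ) :
    (A.card : ℝ) ^ ((k : ℝ) - ε * (k : ℝ) ^ 2) ≤ C ^ k * ((sumSet k A).card : ℝ) := by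
  have hN1 : (1 : ℝ) ≤ (A.card : ℝ) := by exact_mod_cast hA.card_pos
  have hN0 : (0 : ℝ) < (A.card : ℝ) := by linarith
  induction k with
  | zero =>
    have := (sumSet_nonempty hA 0).card_pos
    have h1 : (1 : ℝ) ≤ ((sumSet 0 A).card : ℝ) := by exact_mod_cast this
    simpa using h1
  | succ k ih =>
    have hD := sumSet_nonempty hA k
    have hD1 : (1 : ℝ) ≤ ((sumSet k A).card : ℝ) := by exact_mod_cast hD.card_pos
    have h1 := h (sumSet k A) hD
    rw [sumS_sumSet] at h1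
    have hDle : ((sumSet k A).card : ℝ) ≤ (A.card : ℝ) ^ k := by
      exact_mod_cast sumSet_card_le A k
    have hPD : (A.card : ℝ) * (sumSet k A).card ≤ (A.card : ℝ) ^ (k + 1) := by
      rw [pow_succ, mul_comm]
      exact mul_le_mul_of_nonneg_right hDle hN0.le
    have hPD0 : 0 < (A.card : ℝ) * (sumSet k A).card := by positivity
    -- (N D)^(1-eps) >= N D N^(-eps (k+1))
    have h2 : (A.card : ℝ) * (sumSet k A).card * (A.card : ℝ) ^ (-(ε * (k + 1))) ≤
        ((A.card : ℝ) * (sumSet k A).card) ^ (1 - ε) := by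
      rw [sub_eq_add_neg, Real.rpow_add hPD0, Real.rpow_one]
      refine mul_le_mul_of_nonneg_left ?_ hPD0.le
      have e : (A.card : ℝ) ^ (-(ε * (k + 1))) = ((A.card : ℝ) ^ (k + 1)) ^ (-ε) := by
        rw [← Real.rpow_natCast, ← Real.rpow_mul hN0.le]
        congr 1
        push_cast
        ring
      rw [e]
      exact Real.rpow_le_rpow_of_nonpos hPD0 hPD (by linarith)
    have h3 : (A.card : ℝ) ^ (((k + 1 : ℕ) : ℝ) - ε * ((k + 1 : ℕ) : ℝ) ^ 2) ≤
        (A.card : ℝ) ^ ((k : ℝ) - ε * (k : ℝ) ^ 2) *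
          ((A.card : ℝ) * (A.card : ℝ) ^ (-(ε * (k + 1)))) := by
      have e3 : (A.card : ℝ) * (A.card : ℝ) ^ (-(ε * (k + 1))) =
          (A.card : ℝ) ^ (1 - ε * (k + 1)) := by
        rw [sub_eq_add_neg, Real.rpow_add hN0, Real.rpow_one]
      rw [e3, ← Real.rpow_add hN0]
      refine Real.rpow_le_rpow_of_exponent_le hN1 ?_
      push_cast
      nlinarith [mul_nonneg hε (Nat.cast_nonneg (α := ℝ) k)]
    have hX0 : (0 : ℝ) ≤ (A.card : ℝ) * (A.card : ℝ) ^ (-(ε * (k + 1))) := by positivity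
    calc (A.card : ℝ) ^ (((k + 1 : ℕ) : ℝ) - ε * ((k + 1 : ℕ) : ℝ) ^ 2)
        ≤ (A.card : ℝ) ^ ((k : ℝ) - ε * (k : ℝ) ^ 2) *
          ((A.card : ℝ) * (A.card : ℝ) ^ (-(ε * (k + 1)))) := h3
      _ ≤ C ^ k * ((sumSet k A).card : ℝ) *
          ((A.card : ℝ) * (A.card : ℝ) ^ (-(ε * (k + 1)))) :=
          mul_le_mul_of_nonneg_right ih hX0
      _ = C ^ k * ((A.card : ℝ) * (sumSet k A).card * (A.card : ℝ) ^ (-(ε * (k + 1)))) := by ring
      _ ≤ C ^ k * (C * ((sumSet (k + 1) A).card : ℝ)) :=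
          mul_le_mul_of_nonneg_left (h2.trans h1) (by positivity)
      _ = C ^ (k + 1) * ((sumSet (k + 1) A).card : ℝ) := by ring

/-- the threshold is a small power -/
theorem thr (k : ℕ) (ε C₂ L : ℝ) (J : ℕ) (hε : 0 < ε) (hC₂ : 1 ≤ C₂) (hJ : 1 ≤ J)
    (h : 16 * (k : ℝ) ^ 2 * C₂ / ε ^ 2 * J ≤ L) (hL : (J : ℝ) ≤ L) :
    (k : ℝ) * (J * Real.log (C₂ * L / J)) ≤ ε * L := by
  have hJ0 : (0 : ℝ) < (J : ℝ) := by exact_mod_cast hJ
  set u : ℝ := L / J with hu
  have hu1 : 1 ≤ u := by rw [hu, le_div_iff₀ hJ0]; linarith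
  have hu2 : 16 * (k : ℝ) ^ 2 * C₂ / ε ^ 2 ≤ u := by rw [hu, le_div_iff₀ hJ0]; exact h
  have hLu : L = u * J := by rw [hu]; field_simp
  have e1 : C₂ * L / J = C₂ * u := by rw [hu]; ring
  have hx0 : 0 < C₂ * u := by positivity
  have hlog : Real.log (C₂ * u) ≤ 2 * Real.sqrt (C₂ * u) := by
    have h1 : Real.log (C₂ * u) = 2 * Real.log (Real.sqrt (C₂ * u)) := by
      rw [Real.log_sqrt hx0.le]
      ring
    have h2 := Real.log_le_sub_one_of_pos (Real.sqrt_pos.2 hx0)
    rw [h1]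
    linarith
  have hk : (k : ℝ) * (2 * Real.sqrt (C₂ * u)) ≤ ε * u := by
    have h1 : ((k : ℝ) * (2 * Real.sqrt (C₂ * u))) ^ 2 = 4 * (k : ℝ) ^ 2 * (C₂ * u) := by
      rw [mul_pow, mul_pow, Real.sq_sqrt hx0.le]
      ring
    refine le_of_sq_le_sq ?_ (by positivity)
    rw [h1]
    have h2 : 16 * (k : ℝ) ^ 2 * C₂ ≤ u * ε ^ 2 := by
      rwa [div_le_iff₀ (by positivity)] at hu2
    have h3 : 0 ≤ 4 * (k : ℝ) ^ 2 * C₂ := by positivity
    nlinarith [mul_le_mul_of_nonneg_right h2 (by linarith : (0 : ℝ) ≤ u),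
      mul_nonneg h3 (by linarith : (0 : ℝ) ≤ u)]
  rw [e1, hLu]
  have h4 : (k : ℝ) * Real.log (C₂ * u) ≤ ε * u :=
    (mul_le_mul_of_nonneg_left hlog (Nat.cast_nonneg k)).trans hk
  nlinarith

theorem popQ1 (hS : SumSide) (hP : ProdSide0) : PopQ1 := by
  intro k ε hε
  obtain ⟨C₁, hC₁, h1⟩ := hP k (ε / 2) (by positivity)
  obtain ⟨C₂, hC₂, h2⟩ := hS (ε / ((k : ℝ) ^ 2 + 1)) (by positivity)
  have hC₂k : (1 : ℝ) ≤ C₂ ^ k := one_le_pow₀ hC₂
  set C : ℝ := C₁ + C₂ ^ k + C₂ + 16 * (k : ℝ) ^ 2 * C₂ / (ε / 2) ^ 2 with hC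
  have hx : (0 : ℝ) ≤ 16 * (k : ℝ) ^ 2 * C₂ / (ε / 2) ^ 2 := by positivity
  refine ⟨C, by linarith, ?_⟩
  intro A P h0 hcard hprime hJL hunp
  have hA : A.Nonempty := by rw [← card_pos]; omega
  have hN3 : (3 : ℝ) ≤ (A.card : ℝ) := by exact_mod_cast hcard
  have hN1 : (1 : ℝ) ≤ (A.card : ℝ) := by linarith
  have hN0 : (0 : ℝ) < (A.card : ℝ) := by linarith
  set L : ℝ := Real.log A.card with hLdef
  have hunp1 : Unpop C₁ P A := by
    intro p hp hpP
    refine lt_of_le_of_lt ?_ (hunp p hp hpP)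
    exact mul_le_mul_of_nonneg_right (by linarith) (by positivity)
  -- products with a bound for the classes
  have hprod : ∀ F : ℕ, 1 ≤ F → (F : ℝ) ^ k ≤ (A.card : ℝ) ^ (ε / 2) →
      (A.card : ℝ) ≤ 2 * ((A.filter (fun a => (cls P A a).card ≤ F)).card : ℝ) →
      (A.card : ℝ) ^ ((k : ℝ) - ε) ≤ C * (max (sumSet k A).card (prodSet k A).card : ℕ) := by
    intro F hF hFk hA2
    have h3 := h1 A P F h0 hcard hprime hF hA2 hunp1
    have hpos : (0 : ℝ) < (A.card : ℝ) ^ (-(ε / 2)) := by positivity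
    have e : (A.card : ℝ) ^ ((k : ℝ) - ε) =
        (A.card : ℝ) ^ ((k : ℝ) - ε / 2) * (A.card : ℝ) ^ (-(ε / 2)) := by
      rw [← Real.rpow_add hN0]
      congr 1
      ring
    have e2 : (A.card : ℝ) ^ (ε / 2) * (A.card : ℝ) ^ (-(ε / 2)) = 1 := by
      rw [← Real.rpow_add hN0]
      simp
    have hm : ((prodSet k A).card : ℝ) ≤ ((max (sumSet k A).card (prodSet k A).card : ℕ) : ℝ) := by
      exact_mod_cast le_max_right _ _
    rw [e]
    calc (A.card : ℝ) ^ ((k : ℝ) - ε / 2) * (A.card : ℝ) ^ (-(ε / 2))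
        ≤ C₁ * (F : ℝ) ^ k * ((prodSet k A).card : ℝ) * (A.card : ℝ) ^ (-(ε / 2)) :=
          mul_le_mul_of_nonneg_right h3 hpos.le
      _ ≤ C₁ * (A.card : ℝ) ^ (ε / 2) * ((prodSet k A).card : ℝ) * (A.card : ℝ) ^ (-(ε / 2)) := by
          gcongr
      _ = C₁ * ((prodSet k A).card : ℝ) *
            ((A.card : ℝ) ^ (ε / 2) * (A.card : ℝ) ^ (-(ε / 2))) := by ring
      _ = C₁ * ((prodSet k A).card : ℝ) := by rw [e2, mul_one]
      _ ≤ C * (max (sumSet k A).card (prodSet k A).card : ℕ) :=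
          mul_le_mul (by linarith) hm (by positivity) (by linarith)
  rcases Nat.eq_zero_or_pos P.card with hJ0 | hJ1
  · -- no primes
    have hPe : P = ∅ := card_eq_zero.1 hJ0
    refine hprod 1 le_rfl ?_ ?_
    · simp only [Nat.cast_one, one_pow]
      exact Real.one_le_rpow hN1 (by positivity)
    · have hall : A.filter (fun a => (cls P A a).card ≤ 1) = A := by
        rw [filter_true_of_mem]
        intro a _
        rw [card_le_one]
        intro x hx y hy
        unfold cls at hx hy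
        rw [mem_filter] at hx hy
        have hx2 := hx.2
        have hy2 := hy.2
        subst hPe
        simp only [Pool.Agent.Helper34.TR.pf, Pool.Agent.Helper34.TR.ppart, prod_empty,
          Nat.cast_one, Int.ediv_one] at hx2 hy2
        rw [hx2, hy2]
      rw [hall]
      linarith
  · have hJR : (1 : ℝ) ≤ (P.card : ℝ) := by exact_mod_cast hJ1
    have hJ0 : (0 : ℝ) < (P.card : ℝ) := by linarith
    have hCL : C ≤ L := by nlinarith
    have hJL1 : C₂ * P.card ≤ L := by nlinarith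
    have hJL2 : 16 * (k : ℝ) ^ 2 * C₂ / (ε / 2) ^ 2 * P.card ≤ L := by nlinarith
    have hJL3 : (P.card : ℝ) ≤ L := by nlinarith
    have hL0 : 0 < L := by linarith
    set θ : ℝ := (C₂ * L / P.card) ^ P.card with hθ
    have hbase : 1 ≤ C₂ * L / P.card := by
      rw [le_div_iff₀ hJ0]
      nlinarith
    have hθ1 : 1 ≤ θ := one_le_pow₀ hbase
    have hθk : θ ^ k ≤ (A.card : ℝ) ^ (ε / 2) := by
      have h3 := thr k (ε / 2) C₂ L P.card (by positivity) hC₂ hJ1 hJL2 hJL3
      have e1 : θ ^ k = Real.exp ((k : ℝ) * (P.card * Real.log (C₂ * L / P.card))) := by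
        rw [hθ, Real.exp_nat_mul, Real.exp_nat_mul, Real.exp_log (by linarith)]
      have e2 : (A.card : ℝ) ^ (ε / 2) = Real.exp (ε / 2 * L) := by
        rw [Real.rpow_def_of_pos hN0, hLdef]
        congr 1
        ring
      rw [e1, e2]
      exact Real.exp_le_exp.2 h3
    by_cases hcase : (A.card : ℝ) ≤ 2 * ((A.filter (fun a => (cls P A a).card ≤ ⌊θ⌋₊)).card : ℝ)
    · refine hprod ⌊θ⌋₊ (Nat.le_floor (by exact_mod_cast hθ1)) ?_ hcase
      refine le_trans ?_ hθk
      exact pow_le_pow_left₀ (by positivity) (Nat.floor_le (by linarith)) k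
    · push Not at hcase
      have hcompl : (A.filter (fun a => (cls P A a).card ≤ ⌊θ⌋₊)).card +
          (A.filter (fun a => θ < ((cls P A a).card : ℝ))).card = A.card := by
        have e : A.filter (fun a => θ < ((cls P A a).card : ℝ)) =
            A.filter (fun a => ¬ (cls P A a).card ≤ ⌊θ⌋₊) := by
          refine filter_congr ?_
          intro a _
          rw [Nat.le_floor_iff (by linarith), not_le]
        rw [e]
        exact card_filter_add_card_filter_not _
      have hbig : (A.card : ℝ) ^ (1 - 1 / C₂) ≤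
          ((A.filter (fun a => θ < ((cls P A a).card : ℝ))).card : ℝ) := by
        have h3 : ((A.filter (fun a => (cls P A a).card ≤ ⌊θ⌋₊)).card : ℝ) +
          ((A.filter (fun a => θ < ((cls P A a).card : ℝ))).card : ℝ) = (A.card : ℝ) := by
          exact_mod_cast hcompl
        have h4 : (A.card : ℝ) / 2 ≤ ((A.filter (fun a => θ < ((cls P A a).card : ℝ))).card : ℝ) := by
          linarith
        refine le_trans ?_ h4
        have h5 : (2 : ℝ) ≤ (A.card : ℝ) ^ (1 / C₂) := by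
          have h6 : (2 : ℝ) ≤ Real.exp 1 := by
            have := Real.add_one_le_exp (1 : ℝ)
            linarith
          refine h6.trans ?_
          rw [Real.rpow_def_of_pos hN0]
          refine Real.exp_le_exp.2 ?_
          rw [mul_one_div, le_div_iff₀ (by linarith)]
          have : C₂ ≤ L := by nlinarith
          linarith
        rw [Real.rpow_sub hN0, Real.rpow_one]
        exact div_le_div_of_nonneg_left hN0.le (by norm_num) h5
      have h6 := h2 A P h0 hcard hprime hJ1 hJL1 hbig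
      have h7 := sum_iter A hA _ C₂ (by positivity) hC₂ h6 k
      have hm : ((sumSet k A).card : ℝ) ≤
          ((max (sumSet k A).card (prodSet k A).card : ℕ) : ℝ) := by
        exact_mod_cast le_max_left _ _
      have h8 : (A.card : ℝ) ^ ((k : ℝ) - ε) ≤
          (A.card : ℝ) ^ ((k : ℝ) - ε / ((k : ℝ) ^ 2 + 1) * (k : ℝ) ^ 2) := by
        refine Real.rpow_le_rpow_of_exponent_le hN1 ?_
        have : ε / ((k : ℝ) ^ 2 + 1) * (k : ℝ) ^ 2 ≤ ε := by
          rw [div_mul_eq_mul_div, div_le_iff₀ (by positivity)]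
          nlinarith
        linarith
      calc (A.card : ℝ) ^ ((k : ℝ) - ε) ≤ C₂ ^ k * ((sumSet k A).card : ℝ) := h8.trans h7
        _ ≤ C * (max (sumSet k A).card (prodSet k A).card : ℕ) :=
          mul_le_mul (by linarith) hm (by positivity) (by linarith)

end Pool.Agent.Helper28.PP
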